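import Mathlib

set_option autoImplicit false

namespace Pool.Agent.Results.MP_2eb2b4_co.Disproof

def Smooth (x : ℕ) : Prop := ∃ i j : ℕ, x = 2 ^ i * 3 ^ j

/-- The `n` smallest numbers of the form `2^i 3^j`. -/
def A (n : ℕ) : Set ℕ := {x | Smooth x ∧ {y | Smooth y ∧ y < x}.ncard < n}

/-- The L-hitting number. -/
noncomputable def f (n : ℕ) : ℕ :=
  sInf {k | ∃ H : Finset ℕ, (H : Set ℕ) ⊆ A n ∧ H.card = k ∧
    ∀ x, x ∈ A n → 2 * x ∈ A n → 3 * x ∈ A n → x ∈ H ∨ 2 * x ∈ H ∨ 3 * x ∈ H}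

def B (n : ℕ) (k : ℤ) : Set ℕ :=
  {x | x ∈ A n ∧ ∃ i j : ℕ, x = 2 ^ i * 3 ^ j ∧ ((i : ℤ) - j) % 3 = k}

def Bt (n : ℕ) (k : ℤ) : Set ℕ :=
  {x | x ∈ A n ∧ ∃ i : ℕ, 1 ≤ i ∧ x = 2 ^ i ∧ (i : ℤ) % 3 = k ∧ 2 ^ (i - 1) * 3 ∉ A n}

noncomputable def h (n : ℕ) : ℕ :=
  min ((B n 0).ncard - (Bt n 0).ncard)
    (min ((B n 1).ncard - (Bt n 1).ncard) ((B n 2).ncard - (Bt n 2).ncard))

def L : Finset ℕ :=
  {1, 2, 3, 4, 6, 8, 9, 12, 16, 18, 24, 27, 32, 36, 48, 54, 64, 72, 81, 96, 108, 128, 144, 162, 192, 216, 243, 256, 288, 324, 384, 432, 486, 512, 576, 648, 729, 768, 864, 972, 1024, 1152, 1296, 1458, 1536}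

lemma L1 : ∀ x ∈ L, x ≤ 1536 ∧ ∃ i < 11, ∃ j < 7, x = 2 ^ i * 3 ^ j := by decide +kernel

lemma L2 : ∀ i < 11, ∀ j < 7, 2 ^ i * 3 ^ j ≤ 1536 → 2 ^ i * 3 ^ j ∈ L := by decide +kernel

lemma bd (i j : ℕ) (h : 2 ^ i * 3 ^ j ≤ 1536) : i < 11 ∧ j < 7 := by
  have h1 : 0 < 2 ^ i := by positivity
  have h2 : 0 < 3 ^ j := by positivity
  constructor
  · by_contra hi
    have : 2 ^ 11 ≤ 2 ^ i := Nat.pow_le_pow_right (by norm_num) (by omega)
    nlinarith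
  · by_contra hj
    have : 3 ^ 7 ≤ 3 ^ j := Nat.pow_le_pow_right (by norm_num) (by omega)
    nlinarith

lemma memL (x : ℕ) : x ∈ L ↔ Smooth x ∧ x ≤ 1536 := by
  constructor
  · intro hx
    obtain ⟨h1, i, -, j, -, h2⟩ := L1 x hx
    exact ⟨⟨i, j, h2⟩, h1⟩
  · rintro ⟨⟨i, j, rfl⟩, h⟩
    exact L2 i (bd i j h).1 j (bd i j h).2 h

lemma A45 : A 45 = (L : Set ℕ) := by
  ext x
  rw [Finset.mem_coe, memL]
  constructor
  · rintro ⟨h1, h2⟩
    refine ⟨h1, ?_⟩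
    by_contra hx
    have hs : (L : Set ℕ) ⊆ {y | Smooth y ∧ y < x} := by
      intro y hy
      have := (memL y).mp hy
      exact ⟨this.1, by omega⟩
    have := Set.ncard_le_ncard hs ((Set.finite_lt_nat x).subset (fun y hy => hy.2))
    rw [Set.ncard_coe_finset, show L.card = 45 by decide +kernel] at this
    omega
  · rintro ⟨h1, h2⟩
    refine ⟨h1, ?_⟩
    have hs : {y | Smooth y ∧ y < x} ⊆ (L.erase 1536 : Set ℕ) := by
      intro y hy
      have h3 := hy.2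
      rw [Finset.mem_coe, Finset.mem_erase, memL]
      exact ⟨by omega, hy.1, by omega⟩
    have := Set.ncard_le_ncard hs (Finset.finite_toSet _)
    rw [Set.ncard_coe_finset, show (L.erase 1536).card = 44 by decide +kernel] at this
    omega

lemma Bt0 (k : ℤ) : (Bt 45 k).ncard = 0 := by
  have : Bt 45 k = ∅ := by
    ext x
    simp only [Bt, A45, Set.mem_ofPred_eq, Finset.mem_coe, Set.mem_empty_iff_false, iff_false]
    rintro ⟨h1, i, hi, rfl, -, h2⟩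
    have h3 := (bd i 0 (by simpa using ((memL _).mp h1).2)).1
    apply h2
    interval_cases i <;> decide +kernel
  rw [this, Set.ncard_empty]

lemma B15 (k : ℤ) (S : Finset ℕ) (hS : S.card = 15)
    (h : ∀ x ∈ S, x ∈ L ∧ ∃ i < (11 : ℕ), ∃ j < (7 : ℕ),
      x = 2 ^ i * 3 ^ j ∧ (((i : ℕ) : ℤ) - ((j : ℕ) : ℤ)) % 3 = k) :
    15 ≤ (B 45 k).ncard := by
  have hs : (S : Set ℕ) ⊆ B 45 k := by
    intro x hx
    obtain ⟨h1, i, -, j, -, h2⟩ := h x hx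
    exact ⟨by rw [A45]; exact h1, i, j, h2⟩
  have hf : (B 45 k).Finite := (Finset.finite_toSet L).subset (fun x hx => A45 ▸ hx.1)
  have := Set.ncard_le_ncard hs hf
  rwa [Set.ncard_coe_finset, hS] at this

def H0 : Finset ℕ := {3, 4, 18, 24, 32, 81, 108, 144, 192, 384, 486, 512, 648, 864}

theorem result : ∃ n, 1 ≤ n ∧ (A n).Finite ∧ f n < h n := by
  refine ⟨45, by norm_num, A45 ▸ Finset.finite_toSet L, ?_⟩
  have h1 : f 45 ≤ 14 := by
    apply Nat.sInf_le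
    refine ⟨H0, ?_, by decide +kernel, ?_⟩
    · rw [A45, Finset.coe_subset]; decide +kernel
    · rw [A45]
      simp only [Finset.mem_coe]
      decide +kernel
  have b0 := B15 0 {1, 6, 8, 27, 36, 48, 64, 162, 216, 288, 384, 512, 729, 972, 1296}
    (by decide +kernel) (by decide +kernel)
  have b1 := B15 1 {2, 9, 12, 16, 54, 72, 96, 128, 243, 324, 432, 576, 768, 1024, 1458}
    (by decide +kernel) (by decide +kernel)
  have b2 := B15 2 {3, 4, 18, 24, 32, 81, 108, 144, 192, 256, 486, 648, 864, 1152, 1536}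
    (by decide +kernel) (by decide +kernel)
  rw [h, Bt0, Bt0, Bt0]
  omega

end Pool.Agent.Results.MP_2eb2b4_co.Disproof
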